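import Mathlib

set_option autoImplicit false

namespace Pool.Agent.Results.MP_140fc6_an.Equiv

open Filter Topology Set

/-- Weakly octahedral norms. -/
def WOH (X : Type) [NormedAddCommGroup X] [NormedSpace ℝ X] : Prop :=
  ∀ E : Submodule ℝ X, FiniteDimensional ℝ E → ∀ f : X →L[ℝ] ℝ, ‖f‖ ≤ 1 → ∀ ε : ℝ, 0 < ε →
    ∃ y : X, ‖y‖ = 1 ∧ ∀ x ∈ E, (1 - ε) * (|f x| + ‖y‖) ≤ ‖x + y‖

/-- Property (P). -/
def PropP (X : Type) [NormedAddCommGroup X] [NormedSpace ℝ X] : Prop :=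
  ∀ ε : ℝ, 0 < ε → ∀ (n : ℕ) (x : Fin n → X), (∀ i, ‖x i‖ = 1) → ∀ f : X →L[ℝ] ℝ, ‖f‖ ≤ 1 →
    ∃ y : X, ‖y‖ = 1 ∧ ∀ i, (1 - ε) * (|f (x i)| + 1) ≤ ‖x i + y‖

variable {X : Type} [NormedAddCommGroup X] [NormedSpace ℝ X]

theorem key {f : X →L[ℝ] ℝ} (hf : ‖f‖ ≤ 1) {z x y : X} {s κ r : ℝ} (z1 : ‖z‖ ≤ 1)
    (hz : 1 - κ + s * |f x| ≤ |f (z + s • x)|) (s0 : 0 < s) (κ0 : 0 < κ) (κ1 : κ < 1)
    (hr : s * ‖x‖ ≤ r) (r1 : r ≤ 1) (hy : ‖y‖ = 1) :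
    ‖‖z + s • x‖⁻¹ • (z + s • x)‖ = 1 ∧
    ((1 - κ) * (|f (‖z + s • x‖⁻¹ • (z + s • x))| + 1) ≤ ‖‖z + s • x‖⁻¹ • (z + s • x) + y‖ →
      |f x| + 1 - 5 * κ / s - 3 * κ - r ≤ ‖x + y‖) := by
  have b : ∀ (g : X →L[ℝ] ℝ) (v : X), ‖g‖ ≤ 1 → |g v| ≤ ‖v‖ := fun g v h =>
    (g.le_of_opNorm_le h v).trans (by rw [one_mul])
  set N := ‖z + s • x‖ with hN
  have a0 := mul_nonneg s0.le (abs_nonneg (f x))
  have N0 : 0 < N := by linarith [b f (z + s • x) hf]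
  have N1 : N ≤ 1 + r := (norm_add_le _ _).trans (by
    rw [norm_smul, Real.norm_of_nonneg s0.le]; linarith)
  have u1 : ‖N⁻¹ • (z + s • x)‖ = 1 := by
    rw [norm_smul, Real.norm_of_nonneg (inv_pos.2 N0).le, inv_mul_cancel₀ N0.ne']
  refine ⟨u1, fun h => ?_⟩
  obtain ⟨g, g1, g2⟩ := exists_dual_vector'' ℝ (N⁻¹ • (z + s • x) + y)
  have g3 : g (N⁻¹ • (z + s • x)) + g y = ‖N⁻¹ • (z + s • x) + y‖ := by rw [← map_add]; exact g2
  have c1 : N * |f (N⁻¹ • (z + s • x))| = |f (z + s • x)| := by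
    rw [map_smul, smul_eq_mul, abs_mul, abs_of_pos (inv_pos.2 N0), ← mul_assoc,
      mul_inv_cancel₀ N0.ne', one_mul]
  have c2 : N * g (N⁻¹ • (z + s • x)) = g z + s * g x := by
    rw [map_smul, smul_eq_mul, ← mul_assoc, mul_inv_cancel₀ N0.ne', one_mul]; simp
  set a := |f (N⁻¹ • (z + s • x))| with ha
  have a1 : a ≤ 1 := (b f _ hf).trans u1.le
  have a2 : 0 ≤ a := abs_nonneg _
  have d1 := (le_abs_self _).trans ((b g y g1).trans hy.le)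
  have d2 := (le_abs_self _).trans ((b g _ g1).trans u1.le)
  have d3 := (le_abs_self _).trans ((b g z g1).trans z1)
  have d4 := (le_abs_self _).trans (b g (x + y) g1)
  rw [map_add] at d4
  have e1 : a - 2 * κ ≤ g (N⁻¹ • (z + s • x)) := by nlinarith
  have e2 : a - 2 * κ ≤ g y := by nlinarith
  have r0 : 0 ≤ r := le_trans (by positivity) hr
  have e3 : 1 - κ - r ≤ a := by
    nlinarith [mul_le_mul_of_nonneg_right N1 a2, mul_le_mul_of_nonneg_left a1 r0]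
  have e4 : s * (|f x| - 5 * κ / s) ≤ s * g x := by
    rw [mul_sub, mul_div_cancel₀ _ s0.ne']
    nlinarith [mul_le_mul_of_nonneg_left e1 N0.le]
  linarith [le_of_mul_le_mul_left e4 s0]

/-- A real Banach space is weakly octahedral if and only if it has property (P). -/
theorem result (X : Type) [NormedAddCommGroup X] [NormedSpace ℝ X] [CompleteSpace X] :
    WOH X ↔ PropP X := by
  refine ⟨fun h ε hε n x _ f hf => ?_, fun h E hE f hf ε hε => ?_⟩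
  · obtain ⟨y, y1, y2⟩ := h (Submodule.span ℝ (range x))
      (FiniteDimensional.span_of_finite ℝ (finite_range x)) f hf ε hε
    exact ⟨y, y1, fun i => y1 ▸ y2 _ (Submodule.subset_span ⟨i, rfl⟩)⟩
  obtain ⟨y0, y0n, -⟩ := h 1 one_pos 0 Fin.elim0 (fun i => i.elim0) 0 (by simp)
  by_cases ε1 : 1 ≤ ε
  · exact ⟨y0, y0n, fun x _ => (mul_nonpos_of_nonpos_of_nonneg (by linarith)
      (by positivity)).trans (norm_nonneg _)⟩
  rw [not_le] at ε1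
  obtain ⟨φ, φ1, hφ⟩ : ∃ φ : X →L[ℝ] ℝ, ‖φ‖ = 1 ∧ ∀ x, |f x| ≤ |φ x| := by
    by_cases f0 : f = 0
    · obtain ⟨g, g1, -⟩ := exists_dual_vector ℝ y0 (by rw [y0n]; exact one_ne_zero)
      exact ⟨g, g1, fun x => by simp [f0]⟩
    · have f1 := norm_pos_iff.2 f0
      refine ⟨‖f‖⁻¹ • f, by rw [norm_smul, norm_inv, norm_norm, inv_mul_cancel₀ f1.ne'],
        fun x => ?_⟩
      rw [ContinuousLinearMap.smul_apply, smul_eq_mul, abs_mul, abs_of_pos (inv_pos.2 f1)]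
      exact le_mul_of_one_le_left (abs_nonneg _) ((one_le_inv₀ f1).2 hf)
  obtain ⟨s, hs⟩ : ∃ s : ℝ, s = ε ^ 2 / 8 := ⟨_, rfl⟩
  have s0 : 0 < s := by rw [hs]; positivity
  have s1 : s ≤ 1 := by nlinarith
  obtain ⟨κ, hκ⟩ : ∃ κ : ℝ, κ = ε * s / 32 := ⟨_, rfl⟩
  have κ0 : 0 < κ := by rw [hκ]; positivity
  have κ2 : κ ≤ ε / 32 := by nlinarith
  have κ3 : 5 * κ / s = 5 * ε / 32 := by rw [hκ]; field_simp
  obtain ⟨z, z1, z2⟩ : ∃ z : X, ‖z‖ ≤ 1 ∧ 1 - κ < |φ z| := by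
    obtain ⟨w, w1, w2⟩ := φ.exists_lt_apply_of_lt_opNorm (r := 1 - κ) (by linarith)
    exact ⟨w, w1.le, w2⟩
  have sg : ∀ x : X, ∃ v : X, ‖v‖ ≤ 1 ∧ 1 - κ + s * |φ x| ≤ |φ (v + s • x)| := fun x => by
    rcases le_total 0 (φ z * φ x) with h | h
    · refine ⟨z, z1, ?_⟩
      rw [map_add, map_smul, smul_eq_mul, (abs_add_eq_add_abs_iff _ _).2
        (mul_nonneg_iff.1 (by nlinarith)), abs_mul, abs_of_pos s0]
      linarith
    · refine ⟨-z, by rwa [norm_neg], ?_⟩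
      rw [map_add, map_smul, smul_eq_mul, (abs_add_eq_add_abs_iff _ _).2
        (mul_nonneg_iff.1 (by rw [map_neg]; nlinarith)), abs_mul, abs_of_pos s0, map_neg, abs_neg]
      linarith
  choose v v1 v2 using sg
  obtain ⟨t, t1, t2, t3⟩ := (isCompact_closedBall (0 : E) (2 / ε)).finite_cover_balls
    (show 0 < ε / 4 by positivity)
  obtain ⟨n, u, hu⟩ := t2.fin_embedding
  have k : ∀ (i : Fin n) (y : X), ‖y‖ = 1 → _ := fun i y hy =>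
    key φ1.le (r := ε / 4) (v1 (u i)) (v2 (u i)) s0 κ0 (by linarith) (by
      have : ‖(u i : X)‖ ≤ 2 / ε := mem_closedBall_zero_iff.1 (t1 (hu ▸ mem_range_self i))
      calc s * ‖(u i : X)‖ ≤ s * (2 / ε) := by gcongr
        _ = ε / 4 := by rw [hs]; field_simp; ring) (by linarith) hy
  obtain ⟨y, y1, y2⟩ := h κ κ0 n _ (fun i => (k i y0 y0n).1) φ φ1.le
  refine ⟨y, y1, fun x hx => ?_⟩
  have b : ∀ w, |φ w| ≤ ‖w‖ := fun w => (φ.le_of_opNorm_le φ1.le w).trans (by rw [one_mul])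
  rw [y1]
  by_cases hR : ‖x‖ ≤ 2 / ε
  · obtain ⟨a, ha, hax⟩ := mem_iUnion₂.1 (t3 (mem_closedBall_zero_iff.2 hR : (⟨x, hx⟩ : E) ∈ _))
    obtain ⟨i, rfl⟩ : a ∈ range u := hu ▸ ha
    have c1 : ‖x - u i‖ < ε / 4 := mem_ball_iff_norm.1 hax
    have c2 := (k i y y1).2 (y2 i)
    have c3 := norm_sub_le (x + y) (x - u i)
    rw [show x + y - (x - u i) = u i + y by abel] at c3
    have c4 := abs_sub_abs_le_abs_sub (φ x) (φ (u i))
    rw [← map_sub] at c4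
    nlinarith [hφ x, b (x - u i), abs_nonneg (f x)]
  · rw [not_le, div_lt_iff₀ hε] at hR
    have c1 := norm_sub_le (x + y) y
    rw [add_sub_cancel_right] at c1
    nlinarith [hφ x, b x, abs_nonneg (f x)]

end Pool.Agent.Results.MP_140fc6_an.Equiv
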